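import Pool.Agent.L5helper98.CQ.Stmts

/-!
# Task Deg of project CQ (helper98): the total size of the large degrees into a set
-/

set_option autoImplicit false

namespace Pool.Agent.L5helper30.CQ

open Finset Pool.Agent.L5helper98.CQ
open scoped Classical

theorem geom_le (τ N : ℕ) :
    ∑ d ∈ range N, (if τ ≤ d then (1 / 2 : ℝ) ^ d else 0) + 2 * (1 / 2 : ℝ) ^ (max N τ) ≤
      2 * (1 / 2 : ℝ) ^ τ := by
  induction N with
  | zero => simp
  | succ N ih =>
    rw [Finset.sum_range_succ]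
    by_cases h : τ ≤ N
    · rw [if_pos h, max_eq_left (by omega : τ ≤ N + 1), pow_succ]
      rw [max_eq_left h] at ih
      linarith
    · rw [if_neg h, max_eq_right (by omega : N + 1 ≤ τ)]
      rw [max_eq_right (by omega : N ≤ τ)] at ih
      linarith

/-- one term of the exponential moment -/
theorem term_le {s τ d : ℕ} {x : ℝ} (hx : 0 ≤ x) (hτ : 1 ≤ τ) (hd : τ ≤ d)
    (h : Real.exp 1 * s * x ≤ τ / 2) : (s.choose d : ℝ) * x ^ d ≤ (1 / 2 : ℝ) ^ d := by
  have hdpos : (0 : ℝ) < d := by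
    have : 1 ≤ d := by omega
    exact_mod_cast this
  have hτd : (τ : ℝ) ≤ d := by exact_mod_cast hd
  have he : 0 < Real.exp 1 := Real.exp_pos 1
  have h1 : (s.choose d : ℝ) ≤ (s : ℝ) ^ d / (d.factorial : ℝ) := Nat.choose_le_pow_div d s
  have hfac : (0 : ℝ) < (d.factorial : ℝ) := by exact_mod_cast Nat.factorial_pos d
  have h2 : (s : ℝ) * x ≤ d / (2 * Real.exp 1) := by
    rw [le_div_iff₀ (by positivity)]
    nlinarith
  have h3 : ((s : ℝ) * x) ^ d ≤ (d / (2 * Real.exp 1)) ^ d :=
    pow_le_pow_left₀ (by positivity) h2 d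
  have h4 : (d : ℝ) ^ d / (d.factorial : ℝ) ≤ Real.exp d :=
    Real.pow_div_factorial_le_exp (d : ℝ) hdpos.le d
  have h5 : Real.exp d = Real.exp 1 ^ d := by
    rw [← Real.exp_nat_mul, mul_one]
  calc (s.choose d : ℝ) * x ^ d ≤ (s : ℝ) ^ d / (d.factorial : ℝ) * x ^ d :=
        mul_le_mul_of_nonneg_right h1 (by positivity)
    _ = ((s : ℝ) * x) ^ d / (d.factorial : ℝ) := by rw [mul_pow]; ring
    _ ≤ (d / (2 * Real.exp 1)) ^ d / (d.factorial : ℝ) :=
        div_le_div_of_nonneg_right h3 hfac.le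
    _ = ((d : ℝ) ^ d / (d.factorial : ℝ)) * ((2 * Real.exp 1) ^ d)⁻¹ := by
        rw [div_pow]; ring
    _ ≤ Real.exp 1 ^ d * ((2 * Real.exp 1) ^ d)⁻¹ := by
        refine mul_le_mul_of_nonneg_right ?_ (by positivity)
        rw [← h5]; exact h4
    _ = (1 / 2 : ℝ) ^ d := by
        rw [mul_pow, div_pow, one_pow]
        field_simp

theorem taskDeg : TaskDeg := by
  intro n p θ S τ Y h0 h1 hθ hτ hS
  have hθ0 : 0 < θ := lt_of_lt_of_le one_pos hθ
  set h : Fin n → Om n → ℝ := fun v ω =>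
    if τ ≤ (nb ω v S).card then θ ^ (nb ω v S).card else 1 with hh
  have hh1 : ∀ v ω, 1 ≤ h v ω := by
    intro v ω
    simp only [hh]
    split_ifs
    · exact one_le_pow₀ hθ
    · exact le_rfl
  have hh0 : ∀ v ω, 0 ≤ h v ω := fun v ω => le_trans zero_le_one (hh1 v ω)
  -- Markov
  have hM : Pb p (fun ω : Om n => Y ≤ ∑ v ∈ (univ \ S).filter (fun v => τ ≤ (nb ω v S).card),
        (nb ω v S).card) ≤ Ex p (fun ω : Om n => ∏ v ∈ univ \ S, h v ω) / θ ^ Y := by
    refine le_trans (Pb_mono h0 h1 (B := fun ω : Om n => θ ^ Y ≤ ∏ v ∈ univ \ S, h v ω) ?_)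
      (markov h0 h1 _ (fun ω => Finset.prod_nonneg fun v _ => hh0 v ω) _ (pow_pos hθ0 _))
    intro ω hY
    have e : ∏ v ∈ univ \ S, h v ω =
        θ ^ ∑ v ∈ (univ \ S).filter (fun v => τ ≤ (nb ω v S).card), (nb ω v S).card := by
      rw [← Finset.prod_pow_eq_pow_sum, Finset.prod_filter]
    rw [e]
    exact pow_le_pow_right₀ hθ hY
  refine le_trans hM (div_le_div_of_nonneg_right ?_ (pow_pos hθ0 _).le)
  -- independence
  have hind : Ex p (fun ω : Om n => ∏ v ∈ univ \ S, h v ω) = ∏ v ∈ univ \ S, Ex p (h v) := by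
    refine Ex_prod_of_dep p (univ \ S) (fun v => star v S) h ?_ ?_
    · intro v _ ω ω' hω
      have := Dep_nb v S ω ω' hω
      simp only [hh]
      simp only at this
      rw [this]
    · intro v hv w _ hvw
      exact star_disjoint v w S (Finset.mem_sdiff.mp hv).2 hvw
  rw [hind]
  -- one vertex
  have hone : ∀ v ∈ univ \ S, Ex p (h v) ≤ Real.exp (2 * (1 / 2 : ℝ) ^ τ) := by
    intro v hv
    have hvS : v ∉ S := (Finset.mem_sdiff.mp hv).2
    have hle : ∀ ω, h v ω ≤ 1 + ∑ K ∈ S.powerset,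
        (if τ ≤ K.card then θ ^ K.card else 0) * (if K ⊆ nb ω v S then 1 else 0) := by
      intro ω
      have hnn : ∀ K ∈ S.powerset, (0 : ℝ) ≤
          (if τ ≤ K.card then θ ^ K.card else 0) * (if K ⊆ nb ω v S then 1 else 0) := by
        intro K _
        split_ifs <;> positivity
      simp only [hh]
      by_cases hd : τ ≤ (nb ω v S).card
      · rw [if_pos hd]
        have hmem : nb ω v S ∈ S.powerset := by
          rw [Finset.mem_powerset]
          intro u hu
          exact ((mem_nb ω v S u).1 hu).1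
        have := Finset.single_le_sum hnn hmem
        rw [if_pos hd, if_pos (Finset.Subset.refl _), mul_one] at this
        linarith
      · rw [if_neg hd]
        have := Finset.sum_nonneg hnn
        linarith
    have hEx : Ex p (h v) ≤ 1 + ∑ K ∈ S.powerset,
        (if τ ≤ K.card then θ ^ K.card else 0) * p ^ K.card := by
      refine le_trans (Ex_mono h0 h1 hle) ?_
      rw [Ex_add, Ex_const, Ex_sum]
      refine add_le_add le_rfl (Finset.sum_le_sum fun K hK => ?_)
      rw [Ex_const_mul]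
      have hKS : K ⊆ S := Finset.mem_powerset.mp hK
      have := Pb_subset_nb p v S K hKS (fun h => hvS (hKS h))
      unfold Pb at this
      have this' : Ex p (fun ω : Om n => if K ⊆ nb ω v S then (1 : ℝ) else 0) = p ^ K.card := by
        convert this
      rw [this']
    refine le_trans hEx ?_
    have hsum : ∑ K ∈ S.powerset, (if τ ≤ K.card then θ ^ K.card else 0) * p ^ K.card ≤
        2 * (1 / 2 : ℝ) ^ τ := by
      rw [Finset.sum_powerset_apply_card
        (fun d => (if τ ≤ d then θ ^ d else 0) * p ^ d) (x := S)]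
      have hterm : ∀ d ∈ range (S.card + 1),
          S.card.choose d • ((if τ ≤ d then θ ^ d else 0) * p ^ d) ≤
            (if τ ≤ d then (1 / 2 : ℝ) ^ d else 0) := by
        intro d _
        by_cases hd : τ ≤ d
        · rw [if_pos hd, if_pos hd, nsmul_eq_mul, ← mul_pow]
          refine term_le (by positivity) hτ hd ?_
          calc Real.exp 1 * S.card * (θ * p) = Real.exp 1 * S.card * p * θ := by ring
            _ ≤ τ / 2 := hS
        · rw [if_neg hd, if_neg hd]; simp
      refine le_trans (Finset.sum_le_sum hterm) ?_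
      have := geom_le τ (S.card + 1)
      have hpos : (0 : ℝ) ≤ 2 * (1 / 2 : ℝ) ^ (max (S.card + 1) τ) := by positivity
      linarith
    have := Real.add_one_le_exp (2 * (1 / 2 : ℝ) ^ τ)
    linarith
  have hE0 : ∀ v ∈ univ \ S, 0 ≤ Ex p (h v) := fun v _ => Ex_nonneg h0 h1 (hh0 v)
  calc ∏ v ∈ univ \ S, Ex p (h v) ≤ ∏ v ∈ univ \ S, Real.exp (2 * (1 / 2 : ℝ) ^ τ) :=
        Finset.prod_le_prod hE0 hone
    _ = Real.exp (2 * (1 / 2 : ℝ) ^ τ) ^ (univ \ S).card := by rw [Finset.prod_const]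
    _ ≤ Real.exp (2 * (1 / 2 : ℝ) ^ τ) ^ n := by
        refine pow_le_pow_right₀ (Real.one_le_exp (by positivity)) ?_
        calc (univ \ S).card ≤ (univ : Finset (Fin n)).card := Finset.card_le_card (Finset.sdiff_subset)
          _ = n := by simp
    _ = Real.exp (2 * n * (1 / 2 : ℝ) ^ τ) := by
        rw [← Real.exp_nat_mul]; congr 1; ring

end Pool.Agent.L5helper30.CQ
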